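import Pool.Agent.N113.EP.Fam

/-!
# Maximal atypical subvarieties of subvarieties of products of elliptic curves
-/

set_option autoImplicit false
set_option linter.unusedSectionVars false

namespace Pool.Agent.N113.FG

open MvPolynomial
open Pool.Agent.N113.EC Pool.Agent.R948 Pool.Agent.N101.ZP

section

variable {F : Type} [Field F] [CharZero F] [IsAlgClosed F] [Algebra F ℂ] {ι : Type} [Fintype ι]
  {C : ι → Cv F}

theorem vdim_lt0 {A B : Set (Pts C)} (hA : Subvariety A) (hB : Subvariety B) (h : A ⊂ B)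
    (hA' : Meets A) : vdim A < vdim B := by
  have hB' : Meets B := hA'.mono h.1
  rw [vdim_eq hA hA', vdim_eq hB hB', PP.td_pt, PP.td_pt]
  refine tdP_strict (lt_of_le_of_ne (v0_anti h.1) fun h1 => ?_)
  have h2 : toP hB hB' = toP hA hA' := PP.ext' h1
  have h3 := cl_toP hA hA'
  rw [← h2, cl_toP hB hB'] at h3
  exact h.ne h3.symm

theorem tr_ssub {A B : Set (Pts C)} (h : A ⊂ B) (δ : ι → Bool) :
    {p | tr δ p ∈ A} ⊂ {p | tr δ p ∈ B} := by
  refine ⟨fun p hp => h.1 hp, fun h1 => h.2 fun p hp => ?_⟩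
  have h2 : tr δ p ∈ {p | tr δ p ∈ B} := by
    change tr δ (tr δ p) ∈ B
    rw [tr_self]
    exact hp
  have h3 := h1 h2
  change tr δ (tr δ p) ∈ A at h3
  rwa [tr_self] at h3

theorem vdim_lt {A B : Set (Pts C)} (hA : Subvariety A) (hB : Subvariety B) (h : A ⊂ B) :
    vdim A < vdim B := by
  obtain ⟨p, hp⟩ := hA.nonempty
  obtain ⟨δ, hδ⟩ := exists_aff p
  rw [← vdim_tr δ A, ← vdim_tr δ B]
  exact vdim_lt0 (sub_tr hA δ) (sub_tr hB δ) (tr_ssub h δ) (meets_tr.2 ⟨p, hp, hδ⟩)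

theorem vdim_le {A : Set (Pts C)} (hA : Subvariety A) : vdim A ≤ Fintype.card (ι ⊕ ι) := by
  obtain ⟨p, hp⟩ := hA.nonempty
  obtain ⟨δ, hδ⟩ := exists_aff p
  rw [← vdim_tr δ A, vdim_eq (sub_tr hA δ) (meets_tr.2 ⟨p, hp, hδ⟩), PP.td_pt]
  exact tdP_le_card _

end

end Pool.Agent.N113.FG

namespace Pool.Agent.N113.EP

open MvPolynomial

section

variable {ι : Type} [Fintype ι] {C : ι → Crv}

/-- `X` is an irreducible component of `A`. -/
def Component (X A : Set (Pts C)) : Prop :=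
  Subvariety X ∧ X ⊆ A ∧ ∀ B, Subvariety B → X ⊆ B → B ⊆ A → B = X

/-- the dimension grows -/
def Mon (C : ι → Crv) : Prop :=
  (∀ A B : Set (Pts C), Subvariety A → Subvariety B → A ⊂ B → vdim A < vdim B) ∧
    ∃ N : ℕ, ∀ A : Set (Pts C), Subvariety A → vdim A ≤ N

theorem Mon.le (h : Mon C) {A B : Set (Pts C)} (hA : Subvariety A) (hB : Subvariety B)
    (hAB : A ⊆ B) : vdim A ≤ vdim B := by
  rcases hAB.eq_or_ssubset with h1 | h1
  · rw [h1]
  · exact (h.1 A B hA hB h1).le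

theorem Mon.exists_component (h : Mon C) {A B : Set (Pts C)} (hB : Subvariety B) (hBA : B ⊆ A) :
    ∃ X, Component X A ∧ B ⊆ X := by
  obtain ⟨N, hN⟩ := h.2
  let s : Set ℕ := {d | ∃ X, Subvariety X ∧ B ⊆ X ∧ X ⊆ A ∧ vdim X = d}
  have hs : s.Nonempty := ⟨vdim B, B, hB, subset_rfl, hBA, rfl⟩
  have hb : BddAbove s := ⟨N, by rintro _ ⟨X, hX, -, -, rfl⟩; exact hN X hX⟩
  obtain ⟨X, hX, h1, h2, h3⟩ := Nat.sSup_mem hs hb
  refine ⟨X, ⟨hX, h2, fun D hD hXD hDA => ?_⟩, h1⟩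
  rcases hXD.eq_or_ssubset with h4 | h4
  · exact h4.symm
  · exfalso
    have h5 := h.1 X D hX hD h4
    have h6 : vdim D ≤ sSup s := le_csSup hb ⟨D, hD, h1.trans hXD, hDA, rfl⟩
    omega

end

section

variable {J : Type} [Fintype J] {E : J → Crv} {n : J → Type} [∀ j, Fintype (n j)]

/-- `X` is an atypical subvariety of `V` in the product `S` of the powers `(E j) ^ (n j)`: a component
of the intersection of `V` and a special subvariety `Z` with `dim X > dim V + dim Z - dim S`. -/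
def Atypical (X V : Set (Pts (pw E n))) : Prop :=
  ∃ Z, Special Z ∧ Component X (V ∩ Z) ∧ vdim V + vdim Z < vdim X + Fintype.card (Σ j, n j)

/-- `X` is a maximal atypical subvariety of `V`. -/
def MaxAtypical (X V : Set (Pts (pw E n))) : Prop :=
  Atypical X V ∧ ∀ Y, Atypical Y V → X ⊆ Y → Y = X

theorem special_univ : Special (Set.univ : Set (Pts (pw E n))) := by
  refine ⟨fun _ => ⊥, fun _ => 0, ⟨1, one_ne_zero, fun x => nsmul_zero 1⟩, ?_⟩
  symm
  rw [Set.eq_univ_iff_forall]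
  intro P j m hm
  rw [Submodule.mem_bot] at hm
  refine Finset.sum_eq_zero fun i _ => ?_
  have h1 : (m i : ℚ) = 0 := congrFun hm i
  rw [Int.cast_eq_zero.1 h1]
  exact zero_zsmul _

theorem exists_defect (A : Set (Pts (pw E n))) :
    ∃ Z, Special Z ∧ A ⊆ Z ∧ (vdim Z : ℤ) - vdim A = defect A := by
  have h1 : {d : ℕ | ∃ Z, Special Z ∧ A ⊆ Z ∧ vdim Z = d}.Nonempty :=
    ⟨_, Set.univ, special_univ, Set.subset_univ _, rfl⟩
  obtain ⟨Z, hZ, hAZ, hd⟩ := Nat.sInf_mem h1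
  refine ⟨Z, hZ, hAZ, ?_⟩
  rw [defect, ← hd]

theorem defect_le {A Z : Set (Pts (pw E n))} (hZ : Special Z) (h : A ⊆ Z) :
    defect A ≤ (vdim Z : ℤ) - vdim A := by
  have h1 : sInf {d : ℕ | ∃ Z, Special Z ∧ A ⊆ Z ∧ vdim Z = d} ≤ vdim Z :=
    Nat.sInf_le ⟨Z, hZ, h, rfl⟩
  rw [defect]
  have h2 : ((sInf {d : ℕ | ∃ Z, Special Z ∧ A ⊆ Z ∧ vdim Z = d} : ℕ) : ℤ) ≤ vdim Z := by
    exact_mod_cast h1
  linarith

/-- Maximal atypical subvarieties are optimal. -/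
theorem optimal_of_max (h : Mon (pw E n)) {X V : Set (Pts (pw E n))} (hX : MaxAtypical X V) :
    Optimal X V := by
  obtain ⟨⟨Z, hZ, ⟨hX1, hX2, hX3⟩, hlt⟩, hmax⟩ := hX
  refine ⟨hX1, fun p hp => (hX2 hp).1, fun B hB hXB hBV hle => ?_⟩
  obtain ⟨Z', hZ', hBZ', hd⟩ := exists_defect B
  obtain ⟨Y, hY, hBY⟩ := h.exists_component hB (Set.subset_inter hBV hBZ')
  have h1 := defect_le hZ (fun p hp => (hX2 hp).2 : X ⊆ Z)
  have h2 := h.le hB hY.1 hBY
  have h3 : Atypical Y V := by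
    refine ⟨Z', hZ', hY, ?_⟩
    zify
    zify at hlt h2
    linarith
  have h4 := hmax Y h3 (hXB.1.trans hBY)
  exact hXB.2 (h4 ▸ hBY)

end

section

variable {F : Type} [Field F] [CharZero F] [IsAlgClosed F] [Algebra F ℂ] {J : Type} [Fintype J]
  (E : J → Pool.Agent.N113.EC.Cv F)

theorem mon_toC (n : J → Type) [∀ j, Fintype (n j)] : Mon (pw (fun j => toC (E j)) n) := by
  have h1 : ∀ Z : Set (Pts (pw (fun j => toC (E j)) n)),
    vdim Z = FG.vdim (C := FG.pw E n) Z := fun Z => vdim_eq (FG.pw E n) Z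
  have h2 : ∀ Z : Set (Pts (pw (fun j => toC (E j)) n)),
    Subvariety Z ↔ FG.Subvariety (C := FG.pw E n) Z := fun Z => subvariety_iff (FG.pw E n) Z
  refine ⟨fun A B hA hB hAB => ?_, Fintype.card ((Σ j, n j) ⊕ (Σ j, n j)), fun A hA => ?_⟩
  · rw [h1, h1]
    exact FG.vdim_lt ((h2 A).1 hA) ((h2 B).1 hB) hAB
  · rw [h1]
    exact FG.vdim_le ((h2 A).1 hA)

end

theorem mon_leg {J : Type} [Fintype J] (lam : J → ℂ) (h0 : ∀ j, lam j ≠ 0) (h1 : ∀ j, lam j ≠ 1)
    (n : J → Type) [∀ j, Fintype (n j)] : Mon (pw (fun j => leg (lam j)) n) := by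
  have h2 : (fun j => toC (fam lam h0 h1 j)) = fun j => leg (lam j) :=
    funext fun j => toC_fam lam h0 h1 j
  have h3 := mon_toC (fam lam h0 h1) n
  rw [h2] at h3
  exact h3

/-- The finiteness of the optimal subvarieties implies that of the maximal atypical ones. -/
theorem finite_max {J : Type} [Fintype J] (lam : J → ℂ) (h0 : ∀ j, lam j ≠ 0) (h1 : ∀ j, lam j ≠ 1)
    (n : J → Type) [∀ j, Fintype (n j)] (V : Set (Pts (pw (fun j => leg (lam j)) n)))
    (h : {A | Optimal A V}.Finite) : {X | MaxAtypical X V}.Finite :=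
  h.subset fun _ hX => optimal_of_max (mon_leg lam h0 h1 n) hX

end Pool.Agent.N113.EP
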