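import Pool.Agent.N113.EP.StdA

/-!
# Families of Legendre curves over the complex numbers
-/

set_option autoImplicit false

namespace Pool.Agent.N113.EP

open MvPolynomial
open Pool.Agent.N113.EC

/-- the ring generated by a subset of the complex numbers -/
abbrev Rg (s : Set ℂ) : Subalgebra ℤ ℂ := Algebra.adjoin ℤ s

/-- the field of the complex numbers algebraic over the field generated by a set -/
noncomputable def Fg (s : Set ℂ) : Subfield ℂ where
  carrier := {z | IsAlgebraic (Rg s) z}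
  mul_mem' := fun ha hb => IsAlgebraic.mul ha hb
  one_mem' := isAlgebraic_one
  add_mem' := fun ha hb => IsAlgebraic.add ha hb
  zero_mem' := isAlgebraic_zero
  neg_mem' := fun ha => IsAlgebraic.neg ha
  inv_mem' := fun _ ha => IsAlgebraic.inv ha

theorem mem_Fg (s : Set ℂ) (z : ℂ) : z ∈ Fg s ↔ IsAlgebraic (Rg s) z := Iff.rfl

theorem alg_Fg (s : Set ℂ) (z : ℂ) (h : IsAlgebraic (Fg s) z) : z ∈ Fg s := by
  have h1 : IsAlgebraic (Subalgebra.algebraicClosure (Rg s) ℂ) z := by
    let f : Fg s →+* Subalgebra.algebraicClosure (Rg s) ℂ :=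
      { toFun := fun x => ⟨x.1, x.2⟩
        map_one' := rfl
        map_zero' := rfl
        map_add' := fun _ _ => rfl
        map_mul' := fun _ _ => rfl }
    have hf : Function.Injective f := fun x y hxy =>
      Subtype.ext (congrArg (Subtype.val : Subalgebra.algebraicClosure (Rg s) ℂ → ℂ) hxy)
    exact h.ringHom_of_comp_eq f (RingHom.id ℂ) hf rfl
  exact h1.restrictScalars (Rg s)

instance instAC (s : Set ℂ) : IsAlgClosed (Fg s) := by
  refine IsAlgClosed.of_exists_root _ fun p hp hirr => ?_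
  obtain ⟨z, hz⟩ := IsAlgClosed.exists_aeval_eq_zero ℂ p hirr.degree_pos.ne'
  have h1 : IsAlgebraic (Fg s) z := ⟨p, hp.ne_zero, hz⟩
  refine ⟨⟨z, alg_Fg s z h1⟩, ?_⟩
  apply (algebraMap (Fg s) ℂ).injective
  rw [map_zero, ← hz]
  exact (Polynomial.aeval_algebraMap_apply_eq_algebraMap_eval (A := ℂ)
    (⟨z, alg_Fg s z h1⟩ : Fg s) p).symm

theorem sub_Fg (s : Set ℂ) {z : ℂ} (hz : z ∈ s) : z ∈ Fg s :=
  isAlgebraic_algebraMap (R := Rg s) (A := ℂ) ⟨z, Algebra.subset_adjoin hz⟩

theorem alg_sub (s : Set ℂ) (R : Subalgebra ℤ (Fg s))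
    (h : ∀ z ∈ s, ∃ r : Fg s, r ∈ R ∧ (r : ℂ) = z) : Algebra.IsAlgebraic R (Fg s) := by
  refine ⟨fun x => ?_⟩
  have hx : IsAlgebraic (Rg s) (x : ℂ) := x.2
  let f : Fg s →ₐ[ℤ] ℂ := (algebraMap (Fg s) ℂ).toIntAlgHom
  have hf : Function.Injective f := (algebraMap (Fg s) ℂ).injective
  have hle : Rg s ≤ R.map f := by
    refine Algebra.adjoin_le fun z hz => ?_
    obtain ⟨r, hr, hrz⟩ := h z hz
    exact ⟨r, hr, hrz⟩
  have h1 : IsAlgebraic (R.map f) (x : ℂ) :=
    hx.ringHom_of_comp_eq (Subalgebra.inclusion hle).toRingHom (RingHom.id ℂ)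
      (Subalgebra.inclusion_injective hle) rfl
  have h2 : IsAlgebraic R (x : ℂ) := by
    let e : R ≃ₐ[ℤ] R.map f := R.equivMapOfInjective f hf
    refine h1.of_ringHom_of_comp_eq e.toAlgHom.toRingHom (RingHom.id ℂ) e.surjective
      Function.injective_id ?_
    ext r
    rfl
  exact (isAlgebraic_algebraMap_iff (algebraMap (Fg s) ℂ).injective).1 h2

section

variable {J : Type} [Fintype J] (lam : J → ℂ) (h0 : ∀ j, lam j ≠ 0) (h1 : ∀ j, lam j ≠ 1)

/-- the parameter -/
noncomputable def pr (j : J) : Fg (Set.range lam) := ⟨lam j, sub_Fg _ ⟨j, rfl⟩⟩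

/-- the curves -/
noncomputable def fam (j : J) : Cv (Fg (Set.range lam)) where
  e := -(1 + pr lam j) / 3
  al := 1
  be := pr lam j
  a := -(1 + pr lam j) / 3 * (-(1 + pr lam j) / 3 + 1) +
    -(1 + pr lam j) / 3 * (-(1 + pr lam j) / 3 + pr lam j) +
    (-(1 + pr lam j) / 3 + 1) * (-(1 + pr lam j) / 3 + pr lam j)
  b := -(-(1 + pr lam j) / 3 * (-(1 + pr lam j) / 3 + 1) * (-(1 + pr lam j) / 3 + pr lam j))
  hsum := by ring
  ha := rfl
  hb := rfl
  hal := one_ne_zero
  hbe := fun h => h0 j (congrArg Subtype.val h)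
  hne := fun h => h1 j (congrArg Subtype.val h).symm

theorem toC_fam (j : J) : toC (fam lam h0 h1 j) = leg (lam j) := by
  have h2 : algebraMap (Fg (Set.range lam)) ℂ (pr lam j) = lam j := rfl
  ext
  · simp only [toC, fam, leg, map_add, map_mul, map_neg, map_div₀, map_one, map_ofNat, h2]
  · simp only [toC, fam, leg, map_add, map_mul, map_neg, map_div₀, map_one, map_ofNat, h2]
  · simp only [toC, fam, leg, map_add, map_neg, map_div₀, map_one, map_ofNat, h2]

end

/-- **The Zilber–Pink conjecture for the products of elliptic curves over the complex numbers is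
equivalent to the case of the products of the surfaces `u(P) + u(Q) + u(R) = 0`.** -/
theorem main {J : Type} [Fintype J] (lam : J → ℂ) (h0 : ∀ j, lam j ≠ 0) (h1 : ∀ j, lam j ≠ 1)
    (j₀ : J) :
    (∀ (n : J → Type) [∀ j, Fintype (n j)] (V : Set (Pts (pw (fun j => leg (lam j)) n))),
      Subvariety V → {A | Optimal A V}.Finite) ↔
      ∀ (M : ℕ) (k : Fin M → J),
        {A | Optimal A (closure (surf (fun j => leg (lam j)) j₀ k))}.Finite := by
  have h2 : (fun j => toC (fam lam h0 h1 j)) = fun j => leg (lam j) :=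
    funext fun j => toC_fam lam h0 h1 j
  have h3 := main_toC (fam lam h0 h1) j₀ rfl (alg_sub _ _ ?_)
  · rw [h2] at h3
    exact h3
  · rintro _ ⟨j, rfl⟩
    refine ⟨pr lam j, ?_, rfl⟩
    exact (le_sup_right (a := Algebra.adjoin ℤ (Set.range fun j => (fam lam h0 h1 j).al)))
      (Algebra.subset_adjoin ⟨j, rfl⟩)

end Pool.Agent.N113.EP
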