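import Pool.Agent.N113.EP.Pt
import Pool.Agent.N113.FG.PinkC

/-!
# Points on algebraic subgroups of small dimension
-/

set_option autoImplicit false
set_option linter.unusedSectionVars false
set_option linter.style.haveILetI false

namespace Pool.Agent.N113.EP

open MvPolynomial
open Pool.Agent.N113.EC

section

variable {J : Type} [Fintype J] (E : J → Crv) (n : J → Type) [∀ j, Fintype (n j)]

/-- The union of the algebraic subgroups of codimension larger than `d` of the product of the powers
`(E j) ^ (n j)` which are defined by integral relations: for subgroups `L j` of `ℤ ^ (n j)` the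
algebraic subgroup of the points `P` with `∑ i, m i • P (j, i) = 0` for all `j` and all `m` in `L j`
has codimension `∑ j, rank (L j)`. (If the curves `E j` are pairwise not isogenous and have no
complex multiplication, then these are all algebraic subgroups.) -/
def Deep (d : ℕ) : Set (Pts (pw E n)) :=
  {P | ∃ L : ∀ j, Submodule ℤ (n j → ℤ), d < ∑ j, Module.finrank ℤ (L j) ∧
    ∀ j, ∀ m ∈ L j, (∑ i, m i • P ⟨j, i⟩ : (E j).Pt) = 0}

variable {E n}

/-- `X` is contained in a proper algebraic subgroup: a nontrivial integral relation holds on `X`. -/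
def InSub (X : Set (Pts (pw E n))) : Prop :=
  ∃ j, ∃ m : n j → ℤ, m ≠ 0 ∧ ∀ P ∈ X, (∑ i, m i • P ⟨j, i⟩ : (E j).Pt) = 0

end

/-- **Pink's statement** for all subvarieties of all products of powers of the curves `E j`: if `X`
is contained in no proper algebraic subgroup, then the set of the points of `X` on the algebraic
subgroups of codimension larger than the dimension of `X` is not Zariski dense in `X`. -/
def Pink {J : Type} [Fintype J] (E : J → Crv) : Prop :=
  ∀ (n : J → Type) [∀ j, Fintype (n j)] (X : Set (Pts (pw E n))), Subvariety X → ¬ InSub X →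
    ¬ X ⊆ closure (X ∩ Deep E n (vdim X))

/-- **The Zilber–Pink conjecture** for all products of powers of the curves `E j`: every subvariety
has only finitely many optimal subvarieties. -/
def ZilberPink {J : Type} [Fintype J] (E : J → Crv) : Prop :=
  ∀ (n : J → Type) [∀ j, Fintype (n j)] (V : Set (Pts (pw E n))),
    Subvariety V → {A | Optimal A V}.Finite

section

variable {F : Type} [Field F] [CharZero F] [IsAlgClosed F] [Algebra F ℂ] {J : Type} [Fintype J]
  (E : J → Cv F)

theorem pink_eq : Pink (fun j => toC (E j)) ↔ FG.PinkFor E := by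
  have h1 : ∀ (n : J → Type) [∀ j, Fintype (n j)] (X : Set (Pts (pw (fun j => toC (E j)) n))),
      (X ⊆ closure (X ∩ Deep (fun j => toC (E j)) n (vdim X))) ↔
      (X ⊆ FG.closure (C := FG.pw E n) (X ∩ FG.Deep E n (FG.vdim (C := FG.pw E n) X))) := by
    intro n _ X
    have h2 : vdim X = FG.vdim (C := FG.pw E n) X := vdim_eq (FG.pw E n) X
    have h3 : closure (X ∩ Deep (fun j => toC (E j)) n (vdim X)) =
        FG.closure (C := FG.pw E n) (X ∩ FG.Deep E n (FG.vdim (C := FG.pw E n) X)) := by
      rw [h2]
      exact closure_eq (FG.pw E n) _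
    rw [h3]
  constructor
  · intro h n _ X hX hns hcl
    exact h n X ((subvariety_iff (FG.pw E n) X).2 hX) hns ((h1 n X).2 hcl)
  · intro h n _ X hX hns hcl
    exact h n X ((subvariety_iff (FG.pw E n) X).1 hX) hns ((h1 n X).1 hcl)

theorem pink_points (j₀ : J) (hal : (E j₀).al = 1) (halg : Algebra.IsAlgebraic
    (Algebra.adjoin ℤ (Set.range fun j => (E j).al) ⊔
      Algebra.adjoin ℤ (Set.range fun j => (E j).be) : Subalgebra ℤ F) F)
    (hex : ∀ M : ℕ, ∃ c : Fin M × Fin 3 → ℂ, AlgebraicIndependent F c) :
    Pink (fun j => toC (E j)) ↔ ZilberPink (fun j => toC (E j)) := by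
  rw [pink_eq, FG.pink_iff E j₀ hal halg hex, ← FG.optimal_iff_points E j₀ hal halg hex]
  constructor
  · intro h n _ V hV
    exact (congrArg Set.Finite (optimal_set E n V)).mpr
      (h n V ((subvariety_iff (FG.pw E n) V).1 hV))
  · intro h n _ V hV
    exact (congrArg Set.Finite (optimal_set E n V)).mp
      (h n V ((subvariety_iff (FG.pw E n) V).2 hV))

end

/-- **Pink's statement, the Zilber–Pink conjecture and the optimal points of generic slices.** -/
theorem main_pink {J : Type} [Fintype J] (lam : J → ℂ) (h0 : ∀ j, lam j ≠ 0)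
    (h1 : ∀ j, lam j ≠ 1) (j₀ : J) :
    (Pink (fun j => leg (lam j)) ↔ ZilberPink (fun j => leg (lam j))) ∧
    (Pink (fun j => leg (lam j)) ↔
      ∀ (M : ℕ) (k : Fin M → J) (S : Finset (Fin M × Fin 3)), (∀ x ∈ S, x.2 ≠ 2) →
        ∃ c : Fin M × Fin 3 → ℂ,
          AlgebraicIndependent (Algebra.adjoin ℤ (Set.range lam)) (fun x : S => c x) ∧
          {P | Optimal {P} (closure (slice (fun j => leg (lam j)) j₀ k S c))}.Finite) := by
  have h2 : (fun j => toC (fam lam h0 h1 j)) = fun j => leg (lam j) :=
    funext fun j => toC_fam lam h0 h1 j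
  have h3 := pink_points (fam lam h0 h1) j₀ rfl (alg_sub _ _ ?_) ?_
  · rw [h2] at h3
    exact ⟨h3, h3.trans (main_points lam h0 h1 j₀)⟩
  · rintro _ ⟨j, rfl⟩
    refine ⟨pr lam j, ?_, rfl⟩
    exact (le_sup_right (a := Algebra.adjoin ℤ (Set.range fun j => (fam lam h0 h1 j).al)))
      (Algebra.subset_adjoin ⟨j, rfl⟩)
  · intro M
    obtain ⟨c, hc⟩ := exists_indep (Set.range lam) (Set.finite_range lam) (Fin M × Fin 3)
    exact ⟨c, (indep_iff _ c).2 hc⟩

end Pool.Agent.N113.EP
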