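import Pool.Agent.N113.EP.Aty
import Pool.Agent.N113.FG.Slice
import Mathlib.FieldTheory.IsAlgClosed.Classification
import Mathlib.RingTheory.AlgebraicIndependent.AlgebraicClosure

/-!
# Optimal points of the slices of the products of the surfaces
-/

set_option autoImplicit false
set_option linter.unusedSectionVars false
set_option linter.style.haveILetI false

namespace Pool.Agent.N113.EP

open MvPolynomial
open Pool.Agent.N113.EC

section

variable {J : Type} [Fintype J] (E : J → Crv) (j₀ : J) {M : ℕ} (k : Fin M → J)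

/-- The slice of the product of the surfaces: the points `P` of the product with `u (P x) = c x` for
`x ∈ S`. -/
def slice (S : Finset (Fin M × Fin 3)) (c : Fin M × Fin 3 → ℂ) : Set (Pts (pw E (ns j₀ k))) :=
  {P | P ∈ surf E j₀ k ∧ ∀ x ∈ S, (pw E (ns j₀ k) (ix j₀ k x)).u (P (ix j₀ k x)) = c x}

end

section

variable {F : Type} [Field F] [CharZero F] [Algebra F ℂ] {J : Type} [Fintype J] (E : J → Cv F)
  (j₀ : J) {M : ℕ} (k : Fin M → J)

theorem slice_eq (S : Finset (Fin M × Fin 3)) (c : Fin M × Fin 3 → ℂ) :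
    slice (fun j => toC (E j)) j₀ k S c = FG.slice E j₀ k S c := by
  ext p
  have h2 : ∀ x : Fin M × Fin 3,
      (pw (fun j => toC (E j)) (ns j₀ k) (ix j₀ k x)).u (p (ix j₀ k x)) =
      (FG.pw E (FG.ns j₀ k) (FG.ix j₀ k x)).uu (K := ℂ) (p (ix j₀ k x)) :=
    fun x => u_eq _ _
  have h3 : p ∈ surf (fun j => toC (E j)) j₀ k ↔ p ∈ FG.surf E j₀ k := by
    rw [surf_eq]
    exact Iff.rfl
  refine and_congr h3 (forall_congr' fun x => forall_congr' fun _ => ?_)
  rw [h2]
  exact Iff.rfl

end

section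

variable {F : Type} [Field F] [CharZero F] [IsAlgClosed F] [Algebra F ℂ] {J : Type} [Fintype J]
  (E : J → Cv F) (j₀ : J)

theorem points_toC (hal : (E j₀).al = 1) (halg : Algebra.IsAlgebraic
    (Algebra.adjoin ℤ (Set.range fun j => (E j).al) ⊔
      Algebra.adjoin ℤ (Set.range fun j => (E j).be) : Subalgebra ℤ F) F)
    (hex : ∀ M : ℕ, ∃ c : Fin M × Fin 3 → ℂ, AlgebraicIndependent F c) :
    (∀ (n : J → Type) [∀ j, Fintype (n j)] (V : Set (Pts (pw (fun j => toC (E j)) n))),
      Subvariety V → {A | Optimal A V}.Finite) ↔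
      ∀ (M : ℕ) (k : Fin M → J) (S : Finset (Fin M × Fin 3)), (∀ x ∈ S, x.2 ≠ 2) →
        ∃ c : Fin M × Fin 3 → ℂ, AlgebraicIndependent F (fun x : S => c x) ∧
          {P | Optimal {P} (closure (slice (fun j => toC (E j)) j₀ k S c))}.Finite := by
  have h1 := FG.optimal_iff_points E j₀ hal halg hex
  have h0 : ∀ (M : ℕ) (k : Fin M → J) (S : Finset (Fin M × Fin 3)) (c : Fin M × Fin 3 → ℂ),
      {P | Optimal {P} (closure (slice (fun j => toC (E j)) j₀ k S c))} =
        {P : FG.Pts (FG.pw E (FG.ns j₀ k)) |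
          FG.Optimal {P} (FG.closure (FG.slice E j₀ k S c))} := by
    intro M k S c
    have h4 : closure (slice (fun j => toC (E j)) j₀ k S c) =
        FG.closure (FG.slice E j₀ k S c) := by
      rw [slice_eq]
      exact closure_eq (FG.pw E (FG.ns j₀ k)) _
    ext P
    change Optimal {P} _ ↔ FG.Optimal {P} _
    rw [h4]
    exact optimal_iff E (ns j₀ k) {P} _
  constructor
  · intro h M k S hS
    obtain ⟨c, hc, h2⟩ := h1.1 (fun n _ V hV => by
      have h3 := h n V ((subvariety_iff (FG.pw E n) V).2 hV)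
      exact (congrArg Set.Finite (optimal_set E n V)).mp h3) M k S hS
    exact ⟨c, hc, (congrArg Set.Finite (h0 M k S c)).mpr h2⟩
  · intro h n _ V hV
    have h2 := h1.2 (fun M k S hS => by
      obtain ⟨c, hc, h3⟩ := h M k S hS
      exact ⟨c, hc, (congrArg Set.Finite (h0 M k S c)).mp h3⟩) n V
        ((subvariety_iff (FG.pw E n) V).1 hV)
    exact (congrArg Set.Finite (optimal_set E n V)).mpr h2

end

/-! ### the field generated by the parameters -/

section

/-- the inclusion -/
def inc (s : Set ℂ) : Rg s →+* Fg s where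
  toFun := fun x => ⟨x, isAlgebraic_algebraMap (A := ℂ) x⟩
  map_one' := rfl
  map_zero' := rfl
  map_add' := fun _ _ => rfl
  map_mul' := fun _ _ => rfl

theorem indep_iff (s : Set ℂ) {α : Type} (c : α → ℂ) :
    AlgebraicIndependent (Fg s) c ↔ AlgebraicIndependent (Rg s) c := by
  letI : Algebra (Rg s) (Fg s) := (inc s).toAlgebra
  haveI : IsScalarTower (Rg s) (Fg s) ℂ := .of_algebraMap_eq fun x => rfl
  haveI : Algebra.IsAlgebraic (Rg s) (Fg s) := by
    refine ⟨fun x => ?_⟩
    have hx : IsAlgebraic (Rg s) (x : ℂ) := x.2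
    exact (isAlgebraic_algebraMap_iff (R := Rg s) (A := ℂ) (S := Fg s)
      (algebraMap (Fg s) ℂ).injective).1 hx
  constructor
  · intro h
    have hinj : Function.Injective (algebraMap (Rg s) (Fg s)) := fun x y hxy =>
      Subtype.ext (congrArg (fun z : Fg s => (z : ℂ)) hxy)
    exact h.restrictScalars hinj
  · intro h
    exact h.extendScalars (Fg s)

theorem exists_indep (s : Set ℂ) (hs : s.Finite) (α : Type) [Finite α] :
    ∃ c : α → ℂ, AlgebraicIndependent (Rg s) c := by
  obtain ⟨B, hB⟩ := exists_isTranscendenceBasis (Rg s) ℂ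
  have h1 : Cardinal.mk (Rg s) ≤ Cardinal.aleph0 := by
    refine (Algebra.cardinalMk_adjoin_le ℤ s).trans ?_
    have h2 := hs.to_subtype
    have h3 : Cardinal.mk s < Cardinal.aleph0 := Cardinal.lt_aleph0_of_finite s
    simp [h3.le]
  have h2 : Cardinal.mk ℂ = Cardinal.mk B :=
    IsAlgClosed.cardinal_eq_cardinal_transcendence_basis_of_aleph0_lt' _ hB h1 (by
      rw [Cardinal.mk_complex]
      exact Cardinal.aleph0_lt_continuum)
  have h3 : Infinite B := by
    rw [← Cardinal.aleph0_le_mk_iff, ← h2, Cardinal.mk_complex]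
    exact Cardinal.aleph0_le_continuum
  obtain ⟨f⟩ : Nonempty (α ↪ B) := by
    have := Fintype.ofFinite α
    obtain ⟨g⟩ := Function.Embedding.nonempty_of_card_le (α := α) (β := Fin (Fintype.card α))
      (by simp)
    exact ⟨g.trans (Fin.valEmbedding.trans (Infinite.natEmbedding B))⟩
  exact ⟨fun a => f a, hB.1.comp f f.injective⟩

end

/-- **Zilber–Pink for the products of powers of elliptic curves over the complex numbers is
equivalent to the finiteness of the optimal points of generic slices.** -/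
theorem main_points {J : Type} [Fintype J] (lam : J → ℂ) (h0 : ∀ j, lam j ≠ 0)
    (h1 : ∀ j, lam j ≠ 1) (j₀ : J) :
    (∀ (n : J → Type) [∀ j, Fintype (n j)] (V : Set (Pts (pw (fun j => leg (lam j)) n))),
      Subvariety V → {A | Optimal A V}.Finite) ↔
      ∀ (M : ℕ) (k : Fin M → J) (S : Finset (Fin M × Fin 3)), (∀ x ∈ S, x.2 ≠ 2) →
        ∃ c : Fin M × Fin 3 → ℂ,
          AlgebraicIndependent (Algebra.adjoin ℤ (Set.range lam)) (fun x : S => c x) ∧
          {P | Optimal {P} (closure (slice (fun j => leg (lam j)) j₀ k S c))}.Finite := by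
  have h2 : (fun j => toC (fam lam h0 h1 j)) = fun j => leg (lam j) :=
    funext fun j => toC_fam lam h0 h1 j
  have h3 := points_toC (fam lam h0 h1) j₀ rfl (alg_sub _ _ ?_) ?_
  · rw [h2] at h3
    simp only [indep_iff] at h3
    exact h3
  · rintro _ ⟨j, rfl⟩
    refine ⟨pr lam j, ?_, rfl⟩
    exact (le_sup_right (a := Algebra.adjoin ℤ (Set.range fun j => (fam lam h0 h1 j).al)))
      (Algebra.subset_adjoin ⟨j, rfl⟩)
  · intro M
    obtain ⟨c, hc⟩ := exists_indep (Set.range lam) (Set.finite_range lam) (Fin M × Fin 3)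
    exact ⟨c, (indep_iff _ c).2 hc⟩

end Pool.Agent.N113.EP
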