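import Mathlib.AlgebraicGeometry.EllipticCurve.Affine.Point
import Mathlib.Data.Complex.Basic
import Mathlib.RingTheory.AlgebraicIndependent.TranscendenceBasis

/-!
# Subvarieties and special subvarieties of products of elliptic curves

An elliptic curve is given by complex numbers `a`, `b`, `e`: it is the curve `y² = x³ + a x + b`, and
`e` is a root of the right hand side; we use the function `u = x - e` and the point `T = (e, 0)` of
order two. For every complex number `l ≠ 0, 1` the curve `leg l` is the curve with the Legendre
equation `y² = u (u - 1) (u - l)`.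

Let `C i`, `i ∈ ι`, be such curves. The points `P` of the product of the curves `C i` over the
complex numbers such that no coordinate `P i` is the origin form the affine open subset `U`, which
is embedded in the affine space by the coordinates `u (P i)`, `y (P i)`. The translates of `U` by the
points whose coordinates are `0` or `T` cover the product.

(The description of the subvarieties of the powers of one curve is due to helper101.)
-/

set_option autoImplicit false

namespace Pool.Agent.N113.EP

open MvPolynomial

/-- The data of a curve `y² = x³ + a x + b` and of a root `e` of the right hand side. -/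
@[ext] structure Crv where
  a : ℂ
  b : ℂ
  e : ℂ

/-- The Weierstrass curve `y² = x³ + a x + b`. -/
def Crv.W (c : Crv) : WeierstrassCurve.Affine ℂ := ⟨0, 0, 0, c.a, c.b⟩

/-- The group of the points over the complex numbers. -/
abbrev Crv.Pt (c : Crv) : Type := c.W.Point

/-- The point `T = (e, 0)`. -/
noncomputable def Crv.T (c : Crv) : c.Pt :=
  open Classical in if h : c.W.Nonsingular c.e 0 then .some c.e 0 h else 0

/-- The coordinate `u = x - e` of a point. -/
def Crv.u (c : Crv) : c.Pt → ℂ
  | .zero => 0
  | .some x _ _ => x - c.e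

/-- The coordinate `y` of a point. -/
def Crv.y (c : Crv) : c.Pt → ℂ
  | .zero => 0
  | .some _ y _ => y

/-- The Legendre curve `y² = u (u - 1) (u - l)`: here `e = -(1 + l) / 3`, and
`x³ + a x + b = (x - e) (x - (e + 1)) (x - (e + l))`. -/
noncomputable def leg (l : ℂ) : Crv where
  e := -(1 + l) / 3
  a := -(1 + l) / 3 * (-(1 + l) / 3 + 1) + -(1 + l) / 3 * (-(1 + l) / 3 + l) +
    (-(1 + l) / 3 + 1) * (-(1 + l) / 3 + l)
  b := -(-(1 + l) / 3 * (-(1 + l) / 3 + 1) * (-(1 + l) / 3 + l))

variable {ι : Type} [Fintype ι] (C : ι → Crv)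

/-- The points of the product of the curves `C i`. -/
abbrev Pts : Type := ∀ i, (C i).Pt

variable {C}

/-- The points of the affine open subset `U`. -/
def Aff (p : Pts C) : Prop := ∀ i, p i ≠ 0

/-- The coordinates of a point of `U`. -/
noncomputable def co (p : Pts C) : ι ⊕ ι → ℂ :=
  Sum.elim (fun i => (C i).u (p i)) (fun i => (C i).y (p i))

/-- The translation by the point whose coordinate `i` is `T` if `ε i` is true and `0` if `ε i` is
false. -/
noncomputable def tr (ε : ι → Bool) (p : Pts C) : Pts C :=
  fun i => p i + if ε i = true then (C i).T else 0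

/-- Zariski closed subsets of the product: the subsets whose intersection with each of the
translates of `U` is defined by polynomials. -/
def ZClosed (A : Set (Pts C)) : Prop :=
  ∀ ε : ι → Bool, ∃ S : Set (MvPolynomial (ι ⊕ ι) ℂ), ∀ p : Pts C, Aff p →
    (tr ε p ∈ A ↔ ∀ f ∈ S, eval (co p) f = 0)

/-- Subvarieties: irreducible Zariski closed subsets of the product. -/
structure Subvariety (A : Set (Pts C)) : Prop where
  closed : ZClosed A
  nonempty : A.Nonempty
  irreducible : ∀ B D : Set (Pts C), ZClosed B → ZClosed D → A ⊆ B ∪ D → A ⊆ B ∨ A ⊆ D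

/-- The Zariski closure. -/
def closure (A : Set (Pts C)) : Set (Pts C) := ⋂₀ {B | ZClosed B ∧ A ⊆ B}

/-- The ideal of the polynomials vanishing on the part of `A` in a translate of `U`. -/
def van (ε : ι → Bool) (A : Set (Pts C)) : Ideal (MvPolynomial (ι ⊕ ι) ℂ) where
  carrier := {f | ∀ p : Pts C, Aff p → tr ε p ∈ A → eval (co p) f = 0}
  zero_mem' := fun _ _ _ => map_zero _
  add_mem' := fun {f g} hf hg x hx hx' => by rw [map_add, hf x hx hx', hg x hx hx', add_zero]
  smul_mem' := fun f g hg x hx hx' => by rw [smul_eq_mul, map_mul, hg x hx hx', mul_zero]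

/-- The dimension of a subvariety: the largest transcendence degree of the ring of the restrictions
of the polynomial functions to its part in a translate of `U`. -/
noncomputable def vdim (A : Set (Pts C)) : ℕ :=
  ⨆ ε : ι → Bool, Cardinal.toNat (Algebra.trdeg ℂ (MvPolynomial (ι ⊕ ι) ℂ ⧸ van ε A))

section

variable {J : Type} (E : J → Crv) (n : J → Type) [∀ j, Fintype (n j)]

/-- The curves of the product of the powers `(E j) ^ (n j)`. -/
abbrev pw : (Σ j, n j) → Crv := fun x => E x.1

variable {E n} [Fintype J]

/-- Special subvarieties of the product of the powers `(E j) ^ (n j)`: the translates by a torsion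
point `t` of the connected subgroups of the points `P` with `∑ i, m i • P (j, i) = 0` for all `j` and
all integral vectors `m` in `L j`, where the `L j` are subspaces of the spaces `ℚ ^ (n j)`. -/
def Special (Z : Set (Pts (pw E n))) : Prop :=
  ∃ (L : ∀ j, Submodule ℚ (n j → ℚ)) (t : Pts (pw E n)), (∃ N : ℕ, N ≠ 0 ∧ ∀ x, N • t x = 0) ∧
    Z = {P | ∀ j, ∀ m : n j → ℤ, (fun i => (m i : ℚ)) ∈ L j →
      (∑ i, m i • (P ⟨j, i⟩ - t ⟨j, i⟩) : (E j).Pt) = 0}

/-- The defect of a subvariety: the least dimension of a special subvariety containing it minus its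
dimension. -/
noncomputable def defect (A : Set (Pts (pw E n))) : ℤ :=
  (sInf {d : ℕ | ∃ Z, Special Z ∧ A ⊆ Z ∧ vdim Z = d} : ℕ) - (vdim A : ℤ)

/-- `A` is an optimal subvariety for `V`: no larger subvariety of `V` has a defect which is at most
the defect of `A`. -/
def Optimal (A V : Set (Pts (pw E n))) : Prop :=
  Subvariety A ∧ A ⊆ V ∧ ∀ B, Subvariety B → A ⊂ B → B ⊆ V → ¬ defect B ≤ defect A

end

section

variable {J : Type} [Fintype J] (E : J → Crv) (j₀ : J) {M : ℕ} (k : Fin M → J)

/-- The curve to which the coordinate `(i, c)` of the product of the products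
`E j₀ × E j₀ × E (k i)`, `i < M`, belongs. -/
def srt : Fin M × Fin 3 → J := fun x => if x.2 = 2 then k x.1 else j₀

/-- The coordinates which belong to the curve `E j`. -/
def ns (j : J) : Type := {x : Fin M × Fin 3 // srt j₀ k x = j}

noncomputable instance (j : J) : Fintype (ns j₀ k j) := by
  classical exact inferInstanceAs (Fintype {x : Fin M × Fin 3 // srt j₀ k x = j})

/-- The coordinate `(i, c)`. -/
def ix (x : Fin M × Fin 3) : Σ j, ns j₀ k j := ⟨srt j₀ k x, x, rfl⟩

/-- The product over `i < M` of the surfaces `{(P, Q, R) : P, Q, R ≠ 0, u(P) + u(Q) + u(R) = 0}` in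
`E j₀ × E j₀ × E (k i)`. -/
def surf : Set (Pts (pw E (ns j₀ k))) :=
  {P | ∀ i : Fin M, (∀ c : Fin 3, P (ix j₀ k (i, c)) ≠ 0) ∧
    ∑ c : Fin 3, (pw E (ns j₀ k) (ix j₀ k (i, c))).u (P (ix j₀ k (i, c))) = 0}

end

end Pool.Agent.N113.EP
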