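import Pool.Agent.N113.EP.Std
import Pool.Agent.N113.FG.End

/-!
# Comparison of the two descriptions of the products of elliptic curves
-/

set_option autoImplicit false
set_option linter.unusedSectionVars false

namespace Pool.Agent.N113.EP

open MvPolynomial
open Pool.Agent.N113.EC

section

variable {F : Type} [Field F] [CharZero F] [Algebra F ℂ]

/-- the curve over the complex numbers -/
noncomputable def toC (E : Cv F) : Crv := ⟨algebraMap F ℂ E.a, algebraMap F ℂ E.b, algebraMap F ℂ E.e⟩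

theorem T_eq (E : Cv F) : (toC E).T = E.T ℂ := by
  have h1 : (0 : ℂ) + algebraMap F ℂ E.e = (toC E).e := zero_add _
  have h2 : (toC E).W.Nonsingular (toC E).e 0 := by
    have h3 := E.ns (K := ℂ) (x := 0 + algebraMap F ℂ E.e) (y := 0) (by rw [E.cube_eq]; ring)
    rw [h1] at h3
    exact h3
  rw [Crv.T, dif_pos h2]
  exact (Pool.Agent.H475R2.DC_RED.some_congr _ _ h1 rfl).symm

theorem u_eq (E : Cv F) (P : (toC E).Pt) : (toC E).u P = E.uu (K := ℂ) P := by
  rcases P with _ | ⟨x, y, h⟩
  · rfl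
  · rfl

theorem y_eq (E : Cv F) (P : (toC E).Pt) : (toC E).y P = E.yy (K := ℂ) P := by
  rcases P with _ | ⟨x, y, h⟩
  · rfl
  · rfl

variable {ι : Type} [Fintype ι] (C : ι → Cv F)

theorem tr_eq (ε : ι → Bool) (p : Pts fun i => toC (C i)) : tr ε p = FG.tr (C := C) ε p := by
  funext i
  change p i + (if ε i = true then (toC (C i)).T else 0) = _
  rw [T_eq]
  rfl

theorem co_eq (p : Pts fun i => toC (C i)) : co p = FG.co (C := C) p := by
  funext j
  rcases j with j | j
  · exact u_eq (C j) _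
  · exact y_eq (C j) _

theorem zclosed_iff (A : Set (Pts fun i => toC (C i))) : ZClosed A ↔ FG.ZClosed (C := C) A := by
  simp only [ZClosed, tr_eq, co_eq]
  exact Iff.rfl

theorem subvariety_iff (A : Set (Pts fun i => toC (C i))) :
    Subvariety A ↔ FG.Subvariety (C := C) A := by
  constructor
  · rintro ⟨h1, h2, h3⟩
    exact ⟨(zclosed_iff C A).1 h1, h2, fun B D hB hD => h3 B D ((zclosed_iff C B).2 hB)
      ((zclosed_iff C D).2 hD)⟩
  · rintro ⟨h1, h2, h3⟩
    exact ⟨(zclosed_iff C A).2 h1, h2, fun B D hB hD => h3 B D ((zclosed_iff C B).1 hB)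
      ((zclosed_iff C D).1 hD)⟩

theorem closure_eq (A : Set (Pts fun i => toC (C i))) : closure A = FG.closure (C := C) A := by
  simp only [closure, zclosed_iff]
  rfl

theorem van_eq (ε : ι → Bool) (A : Set (Pts fun i => toC (C i))) :
    van ε A = FG.van (C := C) ε A := by
  ext f
  change (∀ p : Pts fun i => toC (C i), Aff p → tr ε p ∈ A → eval (co p) f = 0) ↔ _
  simp only [tr_eq, co_eq]
  exact Iff.rfl

theorem vdim_eq (A : Set (Pts fun i => toC (C i))) : vdim A = FG.vdim (C := C) A := by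
  have h1 : ∀ ε : ι → Bool, Cardinal.toNat (Algebra.trdeg ℂ
      (MvPolynomial (ι ⊕ ι) ℂ ⧸ van ε A)) = Cardinal.toNat
      (Algebra.trdeg ℂ (MvPolynomial (ι ⊕ ι) ℂ ⧸ FG.van (C := C) ε A)) := fun ε => by
    rw [van_eq]
  exact iSup_congr h1

end

section

variable {F : Type} [Field F] [CharZero F] [Algebra F ℂ] {J : Type} [Fintype J] (E : J → Cv F)

variable (n : J → Type) [∀ j, Fintype (n j)]

theorem defect_eq (A : Set (Pts (pw (fun j => toC (E j)) n))) :
    defect A = FG.defect (E := E) (n := n) A := by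
  have h1 : ∀ Z : Set (Pts (pw (fun j => toC (E j)) n)),
    vdim Z = FG.vdim (C := FG.pw E n) Z := fun Z => vdim_eq (FG.pw E n) Z
  have h2 : ∀ Z : Set (Pts (pw (fun j => toC (E j)) n)),
    Special Z ↔ FG.Special (E := E) (n := n) Z := fun Z => Iff.rfl
  simp only [defect, h1, h2]
  rfl

theorem optimal_iff (A V : Set (Pts (pw (fun j => toC (E j)) n))) :
    Optimal A V ↔ FG.Optimal (E := E) (n := n) A V := by
  have h1 : ∀ Z : Set (Pts (pw (fun j => toC (E j)) n)),
    Subvariety Z ↔ FG.Subvariety (C := FG.pw E n) Z := fun Z => subvariety_iff (FG.pw E n) Z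
  simp only [Optimal, defect_eq, h1]
  exact Iff.rfl

theorem optimal_set (V : Set (Pts (pw (fun j => toC (E j)) n))) :
    {A | Optimal A V} = {A : Set (FG.Pts (FG.pw E n)) | FG.Optimal A V} :=
  Set.ext fun A => optimal_iff E n A V

end

section

variable {F : Type} [Field F] [CharZero F] [Algebra F ℂ] {J : Type} [Fintype J] (E : J → Cv F)
  (j₀ : J) {M : ℕ} (k : Fin M → J)

theorem surf_eq : surf (fun j => toC (E j)) j₀ k = FG.surf E j₀ k := by
  ext p
  have h1 : ∀ (i : Fin M) (c : Fin 3),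
      (pw (fun j => toC (E j)) (ns j₀ k) (ix j₀ k (i, c))).u (p (ix j₀ k (i, c))) =
      (FG.pw E (FG.ns j₀ k) (FG.ix j₀ k (i, c))).uu (K := ℂ) (p (ix j₀ k (i, c))) :=
    fun i c => u_eq _ _
  refine forall_congr' fun i => and_congr Iff.rfl ?_
  have h2 : ∑ c : Fin 3,
      (pw (fun j => toC (E j)) (ns j₀ k) (ix j₀ k (i, c))).u (p (ix j₀ k (i, c))) =
      ∑ c : Fin 3, (FG.pw E (FG.ns j₀ k) (FG.ix j₀ k (i, c))).uu (K := ℂ) (p (ix j₀ k (i, c))) :=
    Finset.sum_congr rfl fun c _ => h1 i c
  exact Eq.congr_left h2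

end

section

variable {F : Type} [Field F] [CharZero F] [IsAlgClosed F] [Algebra F ℂ] {J : Type} [Fintype J]
  (E : J → Cv F) (j₀ : J)

theorem main_toC (hal : (E j₀).al = 1) (halg : Algebra.IsAlgebraic
    (Algebra.adjoin ℤ (Set.range fun j => (E j).al) ⊔
      Algebra.adjoin ℤ (Set.range fun j => (E j).be) : Subalgebra ℤ F) F) :
    (∀ (n : J → Type) [∀ j, Fintype (n j)] (V : Set (Pts (pw (fun j => toC (E j)) n))),
      Subvariety V → {A | Optimal A V}.Finite) ↔
      ∀ (M : ℕ) (k : Fin M → J),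
        {A | Optimal A (closure (surf (fun j => toC (E j)) j₀ k))}.Finite := by
  have h1 := FG.optimal_iff E j₀ hal halg
  constructor
  · intro h M k
    have h2 := h1.1 (fun n _ V hV => by
      have h3 := h n V ((subvariety_iff (FG.pw E n) V).2 hV)
      exact (congrArg Set.Finite (optimal_set E n V)).mp h3) M k
    have h4 := optimal_set E (ns j₀ k) (closure (surf (fun j => toC (E j)) j₀ k))
    have h5 : closure (surf (fun j => toC (E j)) j₀ k) = FG.closure (FG.surf E j₀ k) := by
      rw [surf_eq]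
      exact closure_eq (FG.pw E (FG.ns j₀ k)) _
    rw [h5] at h4 ⊢
    exact (congrArg Set.Finite h4).mpr h2
  · intro h n _ V hV
    have h2 := h1.2 (fun M k => by
      have h3 := h M k
      have h4 := optimal_set E (ns j₀ k) (closure (surf (fun j => toC (E j)) j₀ k))
      have h5 : closure (surf (fun j => toC (E j)) j₀ k) = FG.closure (FG.surf E j₀ k) := by
        rw [surf_eq]
        exact closure_eq (FG.pw E (FG.ns j₀ k)) _
      rw [h5] at h3 h4
      exact (congrArg Set.Finite h4).mp h3) n V ((subvariety_iff (FG.pw E n) V).1 hV)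
    exact (congrArg Set.Finite (optimal_set E n V)).mpr h2

end

end Pool.Agent.N113.EP
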